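import Pool.Agent.Lib.MP_327cb1_an_h24.Tfae

/-!
# MP_327cb1_an: the question is equivalent to its case `E = ℓ₂`, and to its local forms

`Lip0 E` is `Lip₀(E)` with the best Lipschitz constant as norm
(`Pool.Agent.LipL1.Lip0.norm_def`); `LipAt K p` is `Lip₀(K, p)`, the real Lipschitz functions on
the metric space `K` that vanish at `p`, with the best Lipschitz constant as norm
(`Pool.Agent.LipCvx.LipAt.norm_def`); `IsGrothendieck` says that weak* null sequences of the dual
are weakly null; `vectorSpan ℝ K` is the linear span of `K - K`.
-/

namespace Pool.Agent.Results.MP_327cb1_an.HilbertReduction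

open Pool.Agent.LipL1 Pool.Agent.LipSR Pool.Agent.LipCvx

universe u

/-- For every infinite dimensional convex subset `K` of a real normed space and every `p` in `K`
the space `Lip₀(ℓ₂)` is a quotient of `Lip₀(K, p)`. Hence the following are equivalent: some
infinite dimensional Banach space `E` has a Grothendieck space `Lip₀(E)`; `Lip₀(ℓ₂)` is a
Grothendieck space; `Lip₀(K, p)` is a Grothendieck space for some infinite dimensional convex
subset `K` of some normed space; the same for some infinite dimensional compact convex subset of
`ℓ₂`; the same for all subsets of `ℓ₂`. -/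
theorem result :
    (∀ (E : Type u) [NormedAddCommGroup E] [NormedSpace ℝ E] (K : Set E), Convex ℝ K →
      ¬ FiniteDimensional ℝ (vectorSpan ℝ K) → ∀ p : K,
        IsQuotientOf (Lip0 Hilb) (LipAt K p)) ∧
    List.TFAE [QuestionOne.{u}, LipHilbGrothendieck, SomeConvex.{u}, SomeCompactConvex,
      AllSubsets] := by
  refine ⟨fun E _ _ K hK hd p => ?_, tfae⟩
  obtain ⟨Q, L, hQ⟩ := exists_quotient_hilb_convex hK p hd
  exact ⟨Q, fun g => (hQ g).imp fun f hf => hf.2⟩

end Pool.Agent.Results.MP_327cb1_an.HilbertReduction
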