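import Pool.Agent.Lib.MP_327cb1_an_h24.Main

/-!
# MP_327cb1_an: if `Lip₀(K)` is a Grothendieck space, `K` convex, then `K` spans a super-reflexive
normed space

`LipAt K p` is `Lip₀(K, p)`, the real Lipschitz functions on the metric space `K` that vanish at
`p`, with the best Lipschitz constant as norm (`Pool.Agent.LipCvx.LipAt.norm_def`);
`IsGrothendieck` says that weak* null sequences of the dual are weakly null; `vectorSpan ℝ K` is
the linear span of `K - K`, with the norm of `E`.
-/

namespace Pool.Agent.Results.MP_327cb1_an.SuperReflexive

open Pool.Agent.LipL1 Pool.Agent.LipSR Pool.Agent.LipCvx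

universe u v

/-- Let `K` be a convex subset of a real normed space `E`, let `p` be a point of `K`, and suppose
that `Lip₀(K, p)` is a Grothendieck space. Then the linear span of `K - K`, with the norm of `E`,
is super-reflexive: every Banach space that is (crudely) finitely representable in it is
reflexive, and for every `θ > 0` there is `n` such that no sequence of length `n` in its unit
ball is `θ`-separated in the sense of James. -/
theorem result (E : Type u) [NormedAddCommGroup E] [NormedSpace ℝ E] (K : Set E)
    (hK : Convex ℝ K) (p : K) (hG : IsGrothendieck (LipAt K p)) :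
    (∀ (F : Type v) [NormedAddCommGroup F] [NormedSpace ℝ F] [CompleteSpace F],
      CrudelyFinRep F (vectorSpan ℝ K) →
        Function.Surjective (NormedSpace.inclusionInDoubleDual ℝ F)) ∧
    ∀ θ : ℝ, 0 < θ → ∃ n : ℕ, ∀ x : Fin n → vectorSpan ℝ K, (∀ i, ‖x i‖ ≤ 1) →
      ¬ JamesSeparated θ x :=
  ⟨fun _ _ _ _ hF => reflexive_convex hK p hG hF, fun _ hθ => james_convex hK p hG hθ⟩

end Pool.Agent.Results.MP_327cb1_an.SuperReflexive
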